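import Pool.Agent.Helper13_Eng2.Stmts

/-!
# ENG2 module PLS: monomial braid pairs in the unitary group (MP_da8eb3_al)
-/

set_option autoImplicit false

namespace Pool.Agent.Eng.H63

open Matrix

section
variable {K X : Type} [Field K] [StarRing K] [Fintype X] [DecidableEq X]

/-- The standard hermitian form. -/
def stdH (K X : Type) [Field K] [StarRing K] [Fintype X] (u v : X → K) : K :=
  ∑ x, star (u x) * v x

omit [DecidableEq X] in
theorem isHerm_stdH : IsHerm (stdH K X) where
  add_right := by
    intro u v w
    simp only [stdH, Pi.add_apply, mul_add, Finset.sum_add_distrib]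
  smul_right := by
    intro c u v
    simp only [stdH, Pi.smul_apply, smul_eq_mul, Finset.mul_sum]
    exact Finset.sum_congr rfl (fun x _ => by ring)
  symm := by
    intro u v
    simp only [stdH, star_sum, star_mul', star_star]
    exact Finset.sum_congr rfl (fun x _ => by ring)
  nondeg := by
    classical
    intro u h
    funext x
    have h1 := h (Pi.single x 1)
    simp only [stdH, Pi.single_apply, mul_ite, mul_one, mul_zero, Finset.sum_ite_eq',
      Finset.mem_univ, if_true, star_eq_zero] at h1
    exact h1

/-- Monomial operators. -/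
def mono (s : X → K) (hs : ∀ x, s x ≠ 0) (σ : Equiv.Perm X) : (X → K) ≃ₗ[K] (X → K) where
  toFun := fun f x => s x * f (σ x)
  map_add' := by
    intro f g
    funext x
    simp only [Pi.add_apply]
    ring
  map_smul' := by
    intro c f
    funext x
    simp only [Pi.smul_apply, smul_eq_mul, RingHom.id_apply]
    ring
  invFun := fun f x => (s (σ.symm x))⁻¹ * f (σ.symm x)
  left_inv := by
    intro f
    funext x
    simp only [Equiv.apply_symm_apply]
    rw [inv_mul_cancel_left₀ (hs _)]
  right_inv := by
    intro f
    funext x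
    simp only [Equiv.symm_apply_apply]
    rw [mul_inv_cancel_left₀ (hs _)]

omit [StarRing K] [Fintype X] [DecidableEq X] in
theorem mono_apply (s : X → K) (hs : ∀ x, s x ≠ 0) (σ : Equiv.Perm X) (f : X → K) (x : X) :
    mono s hs σ f x = s x * f (σ x) := rfl

omit [StarRing K] in
theorem mono_det (s : X → K) (hs : ∀ x, s x ≠ 0) (σ : Equiv.Perm X) :
    LinearMap.det ((mono s hs σ : (X → K) ≃ₗ[K] (X → K)) : (X → K) →ₗ[K] (X → K)) =
      (∏ x, s x) * ((Equiv.Perm.sign σ : ℤ) : K) := by
  have h1 : ((mono s hs σ : (X → K) ≃ₗ[K] (X → K)) : (X → K) →ₗ[K] (X → K)) =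
      Matrix.toLin' (Matrix.diagonal s * σ.permMatrix K) := by
    apply LinearMap.ext
    intro f
    rw [Matrix.toLin'_apply, ← Matrix.mulVec_mulVec, Matrix.permMatrix_mulVec]
    funext x
    rw [Matrix.mulVec_diagonal]
    rfl
  rw [h1, LinearMap.det_toLin', Matrix.det_mul, Matrix.det_diagonal, Matrix.det_permutation]

theorem mono_mem (s : X → K) (hs : ∀ x, s x ≠ 0) (σ : Equiv.Perm X)
    (h1 : ∀ x, star (s x) * s x = 1) (h2 : ∏ x, s x = 1) (h3 : Equiv.Perm.sign σ = 1) :
    mono s hs σ ∈ SUV (stdH K X) := by
  refine ⟨fun u v => ?_, ?_⟩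
  · simp only [stdH, mono_apply, star_mul']
    rw [← Equiv.sum_comp σ (fun x => star (u x) * v x)]
    refine Finset.sum_congr rfl (fun x _ => ?_)
    calc _ = (star (s x) * s x) * (star (u (σ x)) * v (σ x)) := by ring
      _ = _ := by rw [h1, one_mul]
  · rw [mono_det, h2, h3]
    simp

end

/-- The diagonal part. -/
def tt {K : Type} [Field K] (m : ℕ) (t : K) (x : Option (ZMod m)) : K :=
  if x = none then t⁻¹ else if x = some 0 then t else 1

/-- **PLS** -/
theorem pls (hP : PlpStmt) (hB : HbrStmt) : PlsStmt := by
  intro K _ _ _ m M0 t hne hm hm3 hM0 hcop hst hord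
  obtain ⟨a, haa, ha0, hrho⟩ := hP m hm hm3
  have hm0 : NeZero m := ⟨by omega⟩
  have ht0 : t ≠ 0 := by
    rintro rfl
    rw [mul_zero] at hst
    exact zero_ne_one hst
  have htn : ∀ x, tt m t x ≠ 0 := by
    intro x
    unfold tt
    split_ifs
    · exact inv_ne_zero ht0
    · exact ht0
    · exact one_ne_zero
  have haa' : ∀ x, a (a x) = x := by
    intro x
    have := Equiv.congr_fun haa x
    exact this
  have ha1 : a (some 0) = none := by
    rw [← ha0, haa']
  set ρ : Equiv.Perm (Option (ZMod m)) := shift m * a with hρ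
  have hρa : ∀ x, ρ (a x) = shift m x := by
    intro x
    rw [hρ, Equiv.Perm.mul_apply, haa']
  have hs0 : shift m none = none := rfl
  have hs1 : ∀ i : ZMod m, shift m (some i) = some (i + 1) := fun i => rfl
  have hρ0 : ρ none = some 1 := by
    rw [hρ, Equiv.Perm.mul_apply, ha0, hs1, zero_add]
  have hρ1 : ρ (some 0) = none := by
    rw [hρ, Equiv.Perm.mul_apply, ha1, hs0]
  have hρ3 : ∀ x, ρ (ρ (ρ x)) = x := by
    intro x
    have := Equiv.congr_fun hrho x
    exact this
  have hρ2 : ρ (some 1) = some 0 := by
    have := hρ3 (some 0)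
    rwa [hρ1, hρ0] at this
  -- signs
  have hsρ : Equiv.Perm.sign ρ = 1 := by
    have h1 : Equiv.Perm.sign ρ ^ 3 = 1 := by
      rw [← map_pow, hrho, map_one]
    rcases Int.units_eq_one_or (Equiv.Perm.sign ρ) with h | h
    · exact h
    · rw [h] at h1
      exact absurd h1 (by decide)
  have hsm : (shift m) ^ m = 1 := by
    have h1 : ∀ k : ℕ, ∀ i : ZMod m, ((shift m) ^ k) (some i) = some (i + k) := by
      intro k
      induction k with
      | zero => intro i; simp
      | succ k ih =>
        intro i
        rw [pow_succ', Equiv.Perm.mul_apply, ih, hs1]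
        push_cast
        rw [add_assoc]
    have h2 : ∀ k : ℕ, ((shift m) ^ k) none = none := by
      intro k
      induction k with
      | zero => rfl
      | succ k ih => rw [pow_succ', Equiv.Perm.mul_apply, ih, hs0]
    apply Equiv.ext
    rintro (_ | i)
    · exact h2 m
    · rw [h1]
      simp
  have hss : Equiv.Perm.sign (shift m) = 1 := by
    have h1 : Equiv.Perm.sign (shift m) ^ m = 1 := by
      rw [← map_pow, hsm, map_one]
    rcases Int.units_eq_one_or (Equiv.Perm.sign (shift m)) with h | h
    · exact h
    · rw [h, hm.neg_one_pow] at h1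
      exact absurd h1 (by decide)
  have hsa : Equiv.Perm.sign a = 1 := by
    have h1 : Equiv.Perm.sign ρ = Equiv.Perm.sign (shift m) * Equiv.Perm.sign a := by
      rw [hρ, map_mul]
    rw [hsρ, hss, one_mul] at h1
    exact h1.symm
  have htprod : ∏ x, tt m t x = 1 := by
    rw [Fintype.prod_option]
    have h1 : ∀ i : ZMod m, tt m t (some i) = if i = 0 then t else 1 := by
      intro i
      simp [tt]
    have h2 : tt m t none = t⁻¹ := by simp [tt]
    rw [h2, Finset.prod_congr rfl (fun i _ => h1 i), Finset.prod_ite_eq' Finset.univ (0 : ZMod m)]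
    simp [ht0]
  have htstar : ∀ x, star (tt m t x) * tt m t x = 1 := by
    intro x
    unfold tt
    split_ifs
    · rw [star_inv₀, ← mul_inv, hst, inv_one]
    · exact hst
    · simp
  have htt : ∀ x, tt m t x * tt m t (a x) = 1 := by
    intro x
    by_cases h1 : x = none
    · rw [h1, ha0]
      simp [tt, ht0]
    · by_cases h2 : x = some 0
      · rw [h2, ha1]
        simp [tt, ht0]
      · have h3 : a x ≠ none := by
          intro h
          apply h2
          rw [← haa' x, h, ha0]
        have h4 : a x ≠ some 0 := by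
          intro h
          apply h1
          rw [← haa' x, h, ha1]
        simp [tt, h1, h2, h3, h4]
  -- the operators
  set A := mono (tt m t) htn a with hA
  set B := mono (fun _ : Option (ZMod m) => (1 : K)) (fun _ => one_ne_zero) ρ with hBdef
  have hAmem : A ∈ SUV (stdH K (Option (ZMod m))) :=
    mono_mem _ _ _ htstar htprod hsa
  have hBmem : B ∈ SUV (stdH K (Option (ZMod m))) :=
    mono_mem _ _ _ (by simp) (by simp) hsρ
  have hAA : A * A = 1 := by
    apply LinearEquiv.ext
    intro f
    funext x
    change tt m t x * (tt m t (a x) * f (a (a x))) = f x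
    rw [haa', ← mul_assoc, htt, one_mul]
  have hBB : B * (B * B) = 1 := by
    apply LinearEquiv.ext
    intro f
    funext x
    change 1 * (1 * (1 * f (ρ (ρ (ρ x))))) = f x
    rw [hρ3]
    simp
  have hBap : ∀ (f : Option (ZMod m) → K) (x : Option (ZMod m)), B f x = f (ρ x) := by
    intro f x
    change 1 * f (ρ x) = f (ρ x)
    rw [one_mul]
  set w := A * B with hw
  set z := B * A with hz
  have hzwz : z * w * z = w * z * w := by
    have h1 : z * w * z = A := by
      calc z * w * z = B * (A * A) * (B * (B * A)) := by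
            rw [hz, hw]
            simp only [mul_assoc]
        _ = (B * (B * B)) * A := by
            rw [hAA, mul_one]
            simp only [mul_assoc]
        _ = A := by rw [hBB, one_mul]
    have h2 : w * z * w = A := by
      calc w * z * w = A * (B * (B * ((A * A) * B))) := by
            rw [hz, hw]
            simp only [mul_assoc]
        _ = A * (B * (B * B)) := by
            rw [hAA, one_mul]
        _ = A := by rw [hBB, mul_one]
    rw [h1, h2]
  have hzw : z * w = B * B := by
    calc z * w = B * ((A * A) * B) := by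
          rw [hz, hw]
          simp only [mul_assoc]
      _ = B * B := by rw [hAA, one_mul]
  have hwap : ∀ (f : Option (ZMod m) → K) (x : Option (ZMod m)),
      w f x = tt m t x * f (shift m x) := by
    intro f x
    change tt m t x * (B f (a x)) = _
    rw [hBap, hρa]
  have hwn : ∀ (k : ℕ) (f : Option (ZMod m) → K), (w ^ k) f none = t⁻¹ ^ k * f none := by
    intro k
    induction k with
    | zero => intro f; simp
    | succ k ih =>
      intro f
      rw [pow_succ']
      change w ((w ^ k) f) none = _
      rw [hwap, hs0, ih]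
      simp only [tt, if_true]
      rw [pow_succ']
      ring
  have hws : ∀ (k : ℕ) (f : Option (ZMod m) → K) (i : ZMod m), (w ^ k) f (some i) =
      (∏ j ∈ Finset.range k, tt m t (some (i + (j : ZMod m)))) * f (some (i + (k : ZMod m))) := by
    intro k
    induction k with
    | zero => intro f i; simp
    | succ k ih =>
      intro f i
      rw [pow_succ]
      change (w ^ k) (w f) (some i) = _
      rw [ih, hwap, hs1, Finset.prod_range_succ]
      push_cast
      rw [mul_assoc, add_assoc]
  have hwm : ∀ (f : Option (ZMod m) → K) (i : ZMod m), (w ^ m) f (some i) = t * f (some i) := by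
    intro f i
    rw [hws]
    have h1 : ∏ j ∈ Finset.range m, tt m t (some (i + (j : ZMod m))) =
        ∏ j : ZMod m, tt m t (some (i + j)) := by
      obtain ⟨n, rfl⟩ : ∃ n, m = n + 1 := ⟨m - 1, by omega⟩
      rw [Finset.prod_range]
      let G : ZMod (n + 1) → K := fun j => tt (n + 1) t (some (i + j))
      change ∏ j : Fin (n + 1), G ((j : ℕ) : ZMod (n + 1)) =
        ∏ j : Fin (n + 1), G (show ZMod (n + 1) from j)
      refine Finset.prod_congr rfl (fun j _ => ?_)
      exact congrArg G (ZMod.natCast_zmod_val (n := n + 1) j)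
    have h2 : ∏ j : ZMod m, tt m t (some (i + j)) = t := by
      refine (Equiv.prod_comp (Equiv.addLeft i) (fun j => tt m t (some j))).trans ?_
      have h1 : ∀ i : ZMod m, tt m t (some i) = if i = 0 then t else 1 := by
        intro i
        simp [tt]
      rw [Finset.prod_congr rfl (fun i _ => h1 i),
        Finset.prod_ite_eq' Finset.univ (0 : ZMod m)]
      simp
    rw [h1, h2]
    simp
  have hwme : ∀ (e : ℕ) (f : Option (ZMod m) → K) (i : ZMod m),
      (w ^ (m * e)) f (some i) = t ^ e * f (some i) := by
    intro e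
    induction e with
    | zero => intro f i; simp
    | succ e ih =>
      intro f i
      rw [Nat.mul_succ, pow_add]
      change (w ^ (m * e)) ((w ^ m) f) (some i) = _
      rw [ih, hwm, pow_succ]
      ring
  have hfr : Module.finrank K (Option (ZMod m) → K) = m + 1 := by
    rw [Module.finrank_fintype_fun_eq_card, Fintype.card_option, ZMod.card]
  refine hB K (Option (ZMod m) → K) (stdH K (Option (ZMod m))) (m + 1) (m * M0) hne isHerm_stdH
    hfr w z ((SUV _).mul_mem hAmem hBmem) ((SUV _).mul_mem hBmem hAmem) hzwz ?_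
  intro d c hd hc
  -- commutation with B
  have hgB : ∀ v, (w ^ (2 * d)) (B v) = c • B ((w ^ (2 * d)) v) := by
    intro v
    have h1 : ∀ u, B (B ((w ^ (2 * d)) u)) = c • (w ^ (2 * d)) (B (B u)) := by
      intro u
      have h2 := hc (w u)
      have h3 : (w ^ (2 * d)) (w u) = w ((w ^ (2 * d)) u) := by
        change ((w ^ (2 * d)) * w) u = (w * (w ^ (2 * d))) u
        rw [← pow_succ, ← pow_succ']
      rw [h3] at h2
      have h4 : ∀ u, z (w u) = B (B u) := by
        intro u
        exact LinearEquiv.congr_fun hzw u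
      rw [h4, h4] at h2
      exact h2
    have h5 : ∀ u, B (B (B u)) = u := by
      intro u
      exact LinearEquiv.congr_fun hBB u
    have h6 := congrArg B (h1 (B v))
    rw [h5, h5, map_smul] at h6
    exact h6
  -- evaluate at none
  have hE1 : ∀ f : Option (ZMod m) → K, t⁻¹ ^ (2 * d) * f (some 1) =
      c * (w ^ (2 * d)) f (some 1) := by
    intro f
    have h1 := congrFun (hgB f) none
    rw [hwn, hBap, hρ0, Pi.smul_apply, hBap, hρ0, smul_eq_mul] at h1
    exact h1
  have hE2 : ∀ f : Option (ZMod m) → K, (w ^ (2 * d)) (B f) (some 1) =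
      c * (w ^ (2 * d)) f (some 0) := by
    intro f
    have h1 := congrFun (hgB f) (some 1)
    rw [Pi.smul_apply, hBap, hρ2, smul_eq_mul] at h1
    exact h1
  have hdvd : m ∣ 2 * d := by
    have h1 := hE1 (Pi.single (some 1) 1)
    rw [hws, Pi.single_eq_same, mul_one] at h1
    rw [← ZMod.natCast_eq_zero_iff]
    by_contra hcon
    have h2 : (Pi.single (some 1) 1 : Option (ZMod m) → K)
        (some (1 + ((2 * d : ℕ) : ZMod m))) = 0 := by
      apply Pi.single_eq_of_ne
      intro h3
      apply hcon
      have h4 := Option.some.inj h3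
      exact add_eq_left.1 h4
    rw [h2, mul_zero, mul_zero] at h1
    exact pow_ne_zero _ (inv_ne_zero ht0) h1
  obtain ⟨e, he⟩ := hdvd
  have h1 := hE1 (Pi.single (some 1) 1)
  have h2 := hE2 (Pi.single (some 0) 1)
  rw [he, hwme, Pi.single_eq_same, mul_one, mul_one] at h1
  rw [he, hwme, hwme, hBap, hρ2, Pi.single_eq_same, mul_one] at h2
  have hc1 : c = 1 := by
    have h3 : t ^ e ≠ 0 := pow_ne_zero _ ht0
    have h4 : (c - 1) * t ^ e = 0 := by
      rw [sub_mul, one_mul, ← h2, sub_self]
    rcases mul_eq_zero.1 h4 with h | h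
    · exact sub_eq_zero.1 h
    · exact absurd h h3
  rw [hc1, one_mul] at h1
  have h3 : t ^ (e * (m + 1)) = 1 := by
    have h4 : e * (m + 1) = m * e + e := by ring
    rw [h4, pow_add, ← h1, ← mul_pow, mul_inv_cancel₀ ht0, one_pow]
  have h4 : M0 ∣ e * (m + 1) := by
    rw [← hord]
    exact orderOf_dvd_of_pow_eq_one h3
  have h5 : M0 ∣ e := hcop.symm.dvd_of_dvd_mul_right h4
  have h6 : m * M0 ∣ 2 * d := by
    rw [he]
    exact Nat.mul_dvd_mul_left m h5
  have h7 : Nat.Coprime (m * M0) 2 := Nat.coprime_two_right.2 (hm.mul hM0)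
  exact h7.dvd_of_dvd_mul_left h6

end Pool.Agent.Eng.H63
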