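import Pool.Agent.Helper13_Eng2.Stmts

/-!
# ENG2 module WPAR: a section of a parabolic subgroup of the unitary group (MP_da8eb3_al)
-/

set_option autoImplicit false

namespace Pool.Agent.Eng.H63

section
variable {K L : Type} [Field K] [Finite K] [StarRing K] [Field L] [Algebra K L]
  [FiniteDimensional K L] {q : ℕ}

/-- Arithmetic of `q`. -/
theorem exists_char (hS : StarQ K q) : ∃ p k : ℕ, p.Prime ∧ CharP K p ∧ q = p ^ k := by
  obtain ⟨p, hp⟩ := CharP.exists K
  have := Fintype.ofFinite K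
  obtain ⟨n, hpp, hn⟩ := FiniteField.card K p
  have h1 : q ∣ p ^ (n : ℕ) := by
    rw [← hn, ← Nat.card_eq_fintype_card, hS.card]
    exact dvd_pow_self q two_ne_zero
  obtain ⟨k, -, hk⟩ := (Nat.dvd_prime_pow hpp).1 h1
  exact ⟨p, k, hpp, hp, hk⟩

theorem charL {p : ℕ} (hc : CharP K p) : CharP L p :=
  (Algebra.charP_iff K L p).1 hc

theorem add_q (hS : StarQ K q) (a b : L) : (a + b) ^ q = a ^ q + b ^ q := by
  obtain ⟨p, k, hp, hc, rfl⟩ := exists_char hS
  have := charL (L := L) hc
  have : Fact p.Prime := ⟨hp⟩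
  exact add_pow_char_pow a b p k

theorem q_ne (hS : StarQ K q) : q ≠ 0 := by
  have := hS.two_le
  omega

theorem inj_q (hS : StarQ K q) : Function.Injective (fun a : L => a ^ q) := by
  intro a b hab
  have h1 : (a - b) ^ q + b ^ q = a ^ q := by
    rw [← add_q hS, sub_add_cancel]
  have h2 : (a - b) ^ q = 0 := by
    have h3 : a ^ q = b ^ q := hab
    rw [h3] at h1
    simpa using h1
  exact sub_eq_zero.1 (pow_eq_zero_iff (q_ne hS) |>.1 h2)

theorem surj_q (hS : StarQ K q) (c : L) : ∃ b : L, b ^ q = c := by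
  have : Finite L := Module.finite_of_finite K
  exact (Finite.injective_iff_surjective.1 (inj_q (L := L) hS)) c

theorem exists_star_ne (hS : StarQ K q) : ∃ x : K, star x ≠ x := by
  by_contra hcon
  push Not at hcon
  have := Fintype.ofFinite K
  have h2 := hS.two_le
  have h1 : Monoid.exponent Kˣ ∣ q - 1 := by
    apply Monoid.exponent_dvd_of_forall_pow_eq_one
    intro g
    have h3 : (g : K) ^ q = g := by
      rw [← hS.star, hcon]
    have h4 : (g : K) ^ (q - 1) * (g : K) = 1 * (g : K) := by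
      rw [← pow_succ, Nat.sub_add_cancel (by omega), h3, one_mul]
    have h5 := mul_right_cancel₀ (Units.ne_zero g) h4
    exact Units.ext (by simpa using h5)
  rw [IsCyclic.exponent_eq_card, Nat.card_units, hS.card] at h1
  have h3 := Nat.le_of_dvd (by omega) h1
  have h4 : q < q ^ 2 := by nlinarith
  omega

/-- The form on `L × K × L`. -/
noncomputable def hh (K L : Type) [Field K] [StarRing K] [Field L] [Algebra K L] (q : ℕ)
    (u v : L × K × L) : K :=
  Algebra.trace K L (u.2.2 ^ q * v.1) + star (Algebra.trace K L (v.2.2 ^ q * u.1)) +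
    star u.2.1 * v.2.1

theorem smul_q (hS : StarQ K q) (c : K) (b a : L) :
    Algebra.trace K L ((c • b) ^ q * a) = star c * Algebra.trace K L (b ^ q * a) := by
  rw [smul_pow, smul_mul_assoc, map_smul, smul_eq_mul, hS.star]

theorem trace_nondeg (a : L) (h : ∀ b : L, Algebra.trace K L (a * b) = 0) : a = 0 := by
  have h1 := traceForm_nondegenerate K L
  have h2 := h1.1 a
  apply h2
  intro b
  simpa [Algebra.traceForm_apply] using h b

theorem isHerm_hh (hS : StarQ K q) : IsHerm (hh K L q) where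
  add_right := by
    intro u v w
    simp only [hh, Prod.fst_add, Prod.snd_add, mul_add, add_q hS, add_mul, map_add, star_add]
    ring
  smul_right := by
    intro c u v
    simp only [hh, Prod.smul_fst, Prod.smul_snd, smul_q hS, mul_smul_comm, map_smul, smul_eq_mul,
      star_mul', star_star]
    ring
  symm := by
    intro u v
    simp only [hh, star_add, star_star, star_mul']
    ring
  nondeg := by
    rintro ⟨a, l, b⟩ h
    have h1 : b = 0 := by
      have h2 : b ^ q = 0 := by
        apply trace_nondeg (K := K)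
        intro c
        have := h (c, 0, 0)
        simpa [hh, q_ne hS] using this
      exact pow_eq_zero_iff (q_ne hS) |>.1 h2
    have h3 : a = 0 := by
      apply trace_nondeg (K := K)
      intro c
      obtain ⟨c', hc'⟩ := surj_q (K := K) hS c
      have := h (0, 0, c')
      simp only [hh, hc', mul_zero, map_zero, zero_add, add_zero, star_eq_zero] at this
      rw [mul_comm]
      exact this
    have h4 : l = 0 := by
      have := h (0, 1, 0)
      simpa [hh, q_ne hS] using this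
    rw [h1, h3, h4]
    rfl

/-- Multiplication. -/
noncomputable def mulE (K : Type) {L : Type} [Field K] [Field L] [Algebra K L] (x : L)
    (hx : x ≠ 0) : L ≃ₗ[K] L :=
  LinearEquiv.ofLinearMap (LinearMap.mulLeft K x) (LinearMap.mulLeft K x⁻¹)
    (by ext a; simp [mul_inv_cancel_left₀ hx]) (by ext a; simp [inv_mul_cancel_left₀ hx])

theorem mulE_apply (x : L) (hx : x ≠ 0) (a : L) : mulE K x hx a = x * a := rfl

theorem mulE_coe (x : L) (hx : x ≠ 0) :
    ((mulE K x hx : L ≃ₗ[K] L) : L →ₗ[K] L) = LinearMap.mulLeft K x := rfl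

theorem mulE_det (x : L) (hx : x ≠ 0) :
    LinearMap.det ((mulE K x hx : L ≃ₗ[K] L) : L →ₗ[K] L) = Algebra.norm K x := by
  rw [mulE_coe]
  rfl

/-- The torus element. -/
noncomputable def yy (K : Type) {L : Type} [Field K] [Field L] [Algebra K L] (x x' : L) (e : K)
    (hx : x ≠ 0) (hx' : x' ≠ 0) (he : e ≠ 0) : (L × K × L) ≃ₗ[K] (L × K × L) :=
  (mulE K x hx).prodCongr ((mulE K e he).prodCongr (mulE K x' hx'))

theorem yy_apply (x x' : L) (e : K) (hx : x ≠ 0) (hx' : x' ≠ 0) (he : e ≠ 0) (v : L × K × L) :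
    yy K x x' e hx hx' he v = (x * v.1, e * v.2.1, x' * v.2.2) := rfl

theorem yy_symm_apply (x x' : L) (e : K) (hx : x ≠ 0) (hx' : x' ≠ 0) (he : e ≠ 0)
    (v : L × K × L) :
    (yy K x x' e hx hx' he).symm v = (x⁻¹ * v.1, e⁻¹ * v.2.1, x'⁻¹ * v.2.2) := rfl

theorem yy_det (x x' : L) (e : K) (hx : x ≠ 0) (hx' : x' ≠ 0) (he : e ≠ 0) :
    LinearMap.det ((yy K x x' e hx hx' he : (L × K × L) ≃ₗ[K] (L × K × L)) :
      (L × K × L) →ₗ[K] (L × K × L)) = Algebra.norm K x * (e * Algebra.norm K x') := by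
  have h1 : ((yy K x x' e hx hx' he : (L × K × L) ≃ₗ[K] (L × K × L)) :
      (L × K × L) →ₗ[K] (L × K × L)) =
      ((mulE K x hx : L ≃ₗ[K] L) : L →ₗ[K] L).prodMap
        (((mulE K e he : K ≃ₗ[K] K) : K →ₗ[K] K).prodMap
          ((mulE K x' hx' : L ≃ₗ[K] L) : L →ₗ[K] L)) := rfl
  rw [h1, LinearMap.det_prodMap, LinearMap.det_prodMap, mulE_det, mulE_det, mulE_det,
    Algebra.norm_self]
  rfl

theorem yy_mem (hS : StarQ K q) (x x' : L) (hx : x ≠ 0) (hx' : x' ≠ 0)
    (hxx : x' ^ q = x⁻¹) (he : Algebra.norm K x ^ (q - 1) ≠ 0) :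
    yy K x x' (Algebra.norm K x ^ (q - 1)) hx hx' he ∈ SUV (hh K L q) := by
  have hN : Algebra.norm K x ≠ 0 := by
    rw [Ne, Algebra.norm_eq_zero_iff]
    exact hx
  have hq := q_ne hS
  have := Fintype.ofFinite K
  have hcard : ∀ c : K, c ^ (q ^ 2) = c := by
    intro c
    rw [← hS.card, Nat.card_eq_fintype_card]
    exact FiniteField.pow_card c
  refine ⟨fun u v => ?_, ?_⟩
  · simp only [hh, yy_apply]
    have h1 : ∀ b a : L, (x' * b) ^ q * (x * a) = b ^ q * a := by
      intro b a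
      rw [mul_pow, hxx]
      field_simp
    rw [h1, h1, star_mul']
    have h2 : star (Algebra.norm K x ^ (q - 1)) * Algebra.norm K x ^ (q - 1) = 1 := by
      rw [hS.star, ← pow_mul, ← pow_add]
      have h3 : (q - 1) * q + (q - 1) = q ^ 2 - 1 := by
        obtain ⟨j, rfl⟩ : ∃ j, q = j + 1 := ⟨q - 1, by omega⟩
        have : (j + 1) ^ 2 - 1 = j * (j + 1) + j := by
          have h4 : (j + 1) ^ 2 = j * (j + 1) + j + 1 := by ring
          rw [h4]
          omega
        rw [this]
        simp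
      rw [h3]
      apply mul_right_cancel₀ hN
      rw [← pow_succ, Nat.sub_add_cancel (Nat.one_le_pow _ _ (by omega)), hcard, one_mul]
    calc _ = Algebra.trace K L (u.2.2 ^ q * v.1) + star (Algebra.trace K L (v.2.2 ^ q * u.1)) +
          (star (Algebra.norm K x ^ (q - 1)) * Algebra.norm K x ^ (q - 1)) *
            (star u.2.1 * v.2.1) := by ring
      _ = _ := by rw [h2, one_mul]
  · rw [yy_det]
    have h1 : Algebra.norm K x' ^ q = (Algebra.norm K x)⁻¹ := by
      rw [← map_pow, hxx]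
      apply eq_inv_of_mul_eq_one_left
      rw [← map_mul, inv_mul_cancel₀ hx, map_one]
    have h2 : Algebra.norm K x' = ((Algebra.norm K x)⁻¹) ^ q := by
      rw [← h1, ← pow_mul, ← sq, hcard]
    rw [h2, inv_pow, ← mul_assoc, ← pow_succ', Nat.sub_add_cancel (by omega)]
    exact mul_inv_cancel₀ (pow_ne_zero _ hN)

/-- The functional `b ↦ -star (Tr (b^q α))`. -/
noncomputable def AA (hS : StarQ K q) (α : L) : L →ₗ[K] K where
  toFun := fun b => - star (Algebra.trace K L (b ^ q * α))
  map_add' := by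
    intro a b
    rw [add_q hS, add_mul, map_add, star_add]
    ring
  map_smul' := by
    intro c b
    simp only [smul_q hS, star_mul', star_star, RingHom.id_apply, smul_eq_mul]
    ring

theorem AA_apply (hS : StarQ K q) (α b : L) :
    AA hS α b = - star (Algebra.trace K L (b ^ q * α)) := rfl

theorem AA_neg (hS : StarQ K q) (α b : L) : AA hS (-α) b = - AA hS α b := by
  rw [AA_apply, AA_apply, mul_neg, map_neg, star_neg]

/-- The map `g_α`. -/
noncomputable def gL (hS : StarQ K q) (α : L) : (L × K × L) →ₗ[K] (L × K × L) where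
  toFun := fun v => (v.1 + v.2.1 • α + ((2 : K)⁻¹ * AA hS α v.2.2) • α, v.2.1 + AA hS α v.2.2,
    v.2.2)
  map_add' := by
    intro u v
    ext
    · simp only [Prod.fst_add, Prod.snd_add, map_add, mul_add, add_smul]
      ring
    · simp only [Prod.fst_add, Prod.snd_add, map_add]
      ring
    · simp
  map_smul' := by
    intro c v
    ext
    · simp only [Prod.smul_fst, Prod.smul_snd, map_smul, smul_eq_mul, RingHom.id_apply, smul_add,
        smul_smul]
      ring_nf
    · simp only [Prod.smul_fst, Prod.smul_snd, map_smul, smul_eq_mul, RingHom.id_apply]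
      ring
    · simp

theorem gL_apply (hS : StarQ K q) (α : L) (v : L × K × L) :
    gL hS α v = (v.1 + v.2.1 • α + ((2 : K)⁻¹ * AA hS α v.2.2) • α, v.2.1 + AA hS α v.2.2,
    v.2.2) := rfl

theorem gL_neg (hS : StarQ K q) (h2 : (2 : K) ≠ 0) (α : L) (v : L × K × L) :
    gL hS (-α) (gL hS α v) = v := by
  obtain ⟨a, l, b⟩ := v
  simp only [gL_apply, AA_neg]
  have h3 : ∀ c : K, c • α = (2 : K)⁻¹ • (c • α) + (2 : K)⁻¹ • (c • α) := by
    intro c
    rw [← add_smul]
    have : (2 : K)⁻¹ + (2 : K)⁻¹ = 1 := by field_simp; norm_num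
    rw [this, one_smul]
  ext
  · simp only [smul_neg, add_smul, mul_neg, neg_smul, neg_neg, neg_add, mul_smul]
    have := h3 (AA hS α b)
    linear_combination -this
  · simp
  · rfl

/-- `g_α` as an equivalence. -/
noncomputable def gE (hS : StarQ K q) (h2 : (2 : K) ≠ 0) (α : L) :
    (L × K × L) ≃ₗ[K] (L × K × L) :=
  LinearEquiv.ofLinearMap (gL hS α) (gL hS (-α))
    (by
      apply LinearMap.ext
      intro v
      have := gL_neg hS h2 (-α) v
      rw [neg_neg] at this
      exact this)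
    (by
      apply LinearMap.ext
      intro v
      exact gL_neg hS h2 α v)

theorem gE_apply (hS : StarQ K q) (h2 : (2 : K) ≠ 0) (α : L) (v : L × K × L) :
    gE hS h2 α v = (v.1 + v.2.1 • α + ((2 : K)⁻¹ * AA hS α v.2.2) • α, v.2.1 + AA hS α v.2.2,
    v.2.2) := rfl

theorem gE_coe (hS : StarQ K q) (h2 : (2 : K) ≠ 0) (α : L) :
    ((gE hS h2 α : (L × K × L) ≃ₗ[K] (L × K × L)) : (L × K × L) →ₗ[K] (L × K × L)) =
      gL hS α := rfl

/-- A unipotent map has determinant one. -/
theorem det_unip (V : Type) [AddCommGroup V] [Module K V] [FiniteDimensional K V]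
    (h2 : (2 : K) ≠ 0) (g : V →ₗ[K] V) (hg : (g - 1) ^ 3 = 0) : LinearMap.det g = 1 := by
  obtain ⟨p, hp⟩ := CharP.exists K
  have := Fintype.ofFinite K
  obtain ⟨n, hpp, hn⟩ := FiniteField.card K p
  have : Fact p.Prime := ⟨hpp⟩
  have hp2 : p ≠ 2 := by
    rintro rfl
    exact h2 (by exact_mod_cast CharP.cast_eq_zero K 2)
  have hp3 : 3 ≤ p := by
    have := hpp.two_le
    omega
  have hp0 : p ≠ 0 := hpp.ne_zero
  have hpE : ∀ f : Module.End K V, (p : Module.End K V) * f = 0 := by
    intro f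
    ext v
    have : ((p : Module.End K V) * f) v = (p : K) • f v := by
      rw [Module.End.mul_apply, Nat.cast_smul_eq_nsmul]
      simp
    rw [this, CharP.cast_eq_zero, zero_smul]
    rfl
  have h4 : (g : Module.End K V) ^ p = 1 := by
    have h5 : ((g - 1 : Module.End K V) + 1) ^ p = 1 := by
      obtain ⟨r, hr⟩ := Commute.exists_add_pow_prime_eq hpp (Commute.one_right (g - 1 : Module.End K V))
      rw [hr, one_pow]
      have h6 : (g - 1 : Module.End K V) ^ p = 0 := by
        obtain ⟨j, rfl⟩ : ∃ j, p = 3 + j := ⟨p - 3, by omega⟩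
        rw [pow_add, hg, zero_mul]
      rw [h6, zero_add, mul_assoc, mul_assoc, hpE, add_zero]
    rwa [sub_add_cancel] at h5
  have h7 : LinearMap.det g ^ p = 1 := by
    rw [← map_pow, h4, map_one]
  have h8 : (LinearMap.det g - 1) ^ p = 0 := by
    rw [sub_pow_char, h7, one_pow, sub_self]
  exact sub_eq_zero.1 (pow_eq_zero_iff hp0 |>.1 h8)

theorem gE_mem (hS : StarQ K q) (h2 : (2 : K) ≠ 0) (α : L) :
    gE hS h2 α ∈ SUV (hh K L q) := by
  refine ⟨fun u v => ?_, ?_⟩
  · obtain ⟨a, l, b⟩ := u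
    obtain ⟨a', l', b'⟩ := v
    simp only [gE_apply, hh, AA_apply, mul_add, mul_smul_comm, map_add, map_smul, smul_eq_mul,
      star_add, star_mul', star_neg, star_star, star_inv₀, star_ofNat]
    have h3 : (2 : K)⁻¹ + (2 : K)⁻¹ = 1 := by field_simp; norm_num
    linear_combination (-(Algebra.trace K L (b ^ q * α)) *
      star (Algebra.trace K L (b' ^ q * α))) * h3
  · rw [gE_coe]
    apply det_unip _ h2
    apply LinearMap.ext
    rintro ⟨a, l, b⟩
    have h3 : ∀ v : L × K × L, (gL hS α - 1 : Module.End K (L × K × L)) v =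
        (v.2.1 • α + ((2 : K)⁻¹ * AA hS α v.2.2) • α, AA hS α v.2.2, 0) := by
      intro v
      rw [LinearMap.sub_apply, gL_apply, Module.End.one_apply]
      ext
      · simp
        ring
      · simp
      · simp
    rw [pow_succ, pow_two, Module.End.mul_apply, Module.End.mul_apply, h3, h3, h3]
    simp

/-- The section. -/
def SS (K L : Type) [Field K] [Finite K] [StarRing K] [Field L] [Algebra K L]
    (q : ℕ) : Set ((L × K × L) ≃ₗ[K] (L × K × L)) :=
  {g | g ∈ SUV (hh K L q) ∧ (∀ a : L, g (a, 0, 0) = (a, 0, 0)) ∧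
    (g (0, 1, 0)).2 = (1, 0) ∧ ∀ b : L, (g (0, 0, b)).2.2 = b}

/-- The projection. -/
def pp (K L : Type) [Field K] [Field L] [Algebra K L]
    (g : (L × K × L) ≃ₗ[K] (L × K × L)) : L := (g (0, 1, 0)).1

theorem gE_SS (hS : StarQ K q) (h2 : (2 : K) ≠ 0) (α : L) :
    gE hS h2 α ∈ SS K L q ∧ pp K L (gE hS h2 α) = α := by
  refine ⟨⟨gE_mem hS h2 α, ?_, ?_, ?_⟩, ?_⟩
  · intro a
    simp [gE_apply]
  · simp [gE_apply]
  · intro b
    simp [gE_apply]
  · simp [pp, gE_apply]

theorem SS_one {g : (L × K × L) ≃ₗ[K] (L × K × L)} (hg : g ∈ SS K L q) (l : K) :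
    g (0, l, 0) = (l • pp K L g, l, 0) := by
  have h1 : ((0, l, 0) : L × K × L) = l • ((0, 1, 0) : L × K × L) := by
    ext <;> simp
  rw [h1, map_smul]
  have h2 : g (0, 1, 0) = (pp K L g, 1, 0) := by
    ext
    · rfl
    · exact congrArg Prod.fst hg.2.2.1
    · exact congrArg Prod.snd hg.2.2.1
  rw [h2]
  ext <;> simp

theorem SS_gen {g : (L × K × L) ≃ₗ[K] (L × K × L)} (hg : g ∈ SS K L q) (a : L) (l : K) :
    g (a, l, 0) = (a + l • pp K L g, l, 0) := by
  have h1 : ((a, l, 0) : L × K × L) = (a, 0, 0) + (0, l, 0) := by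
    ext <;> simp
  rw [h1, map_add, hg.2.1, SS_one hg]
  ext <;> simp

theorem SS_gen_inv {g : (L × K × L) ≃ₗ[K] (L × K × L)} (hg : g ∈ SS K L q) (a : L) (l : K) :
    g⁻¹ (a, l, 0) = (a - l • pp K L g, l, 0) := by
  have h1 : (a, l, 0) = g (a - l • pp K L g, l, 0) := by
    rw [SS_gen hg, sub_add_cancel]
  rw [h1]
  change g.symm (g _) = _
  rw [LinearEquiv.symm_apply_apply]

theorem SS_third {g : (L × K × L) ≃ₗ[K] (L × K × L)} (hg : g ∈ SS K L q)
    (v : L × K × L) : (g v).2.2 = v.2.2 := by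
  obtain ⟨a, l, b⟩ := v
  have h1 : ((a, l, b) : L × K × L) = (a, l, 0) + (0, 0, b) := by
    ext <;> simp
  rw [h1, map_add, SS_gen hg]
  simp [hg.2.2.2 b]

theorem SS_third_inv {g : (L × K × L) ≃ₗ[K] (L × K × L)} (hg : g ∈ SS K L q)
    (v : L × K × L) : (g⁻¹ v).2.2 = v.2.2 := by
  have h1 := SS_third hg (g⁻¹ v)
  rw [← h1]
  change (g (g.symm v)).2.2 = _
  rw [LinearEquiv.apply_symm_apply]

theorem eng_SS (hS : StarQ K q) (x x' : L) (hx : x ≠ 0) (hx' : x' ≠ 0)
    (hxx : x' ^ q = x⁻¹) (he : Algebra.norm K x ^ (q - 1) ≠ 0)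
    {g : (L × K × L) ≃ₗ[K] (L × K × L)} (hg : g ∈ SS K L q) :
    eng (yy K x x' (Algebra.norm K x ^ (q - 1)) hx hx' he) g ∈ SS K L q ∧
    pp K L (eng (yy K x x' (Algebra.norm K x ^ (q - 1)) hx hx' he) g) =
      tauW K L q x * pp K L g - pp K L g := by
  set y := yy K x x' (Algebra.norm K x ^ (q - 1)) hx hx' he with hy
  have hymem : y ∈ SUV (hh K L q) := yy_mem hS x x' hx hx' hxx he
  have hev : ∀ v, eng y g v = g⁻¹ (y.symm (g (y v))) := fun v => rfl
  have h1 : ∀ (a : L) (l : K), eng y g (a, l, 0) =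
      (a + l • (tauW K L q x * pp K L g - pp K L g), l, 0) := by
    intro a l
    rw [hev, hy, yy_apply]
    simp only [mul_zero]
    rw [SS_gen hg, yy_symm_apply]
    simp only [mul_zero]
    rw [SS_gen_inv hg]
    ext
    · simp only [tauW]
      rw [inv_mul_cancel_left₀ he, Algebra.smul_def, Algebra.smul_def, Algebra.smul_def, map_mul]
      field_simp
      ring
    · simp only
      rw [inv_mul_cancel_left₀ he]
    · rfl
  refine ⟨⟨?_, ?_, ?_, ?_⟩, ?_⟩
  · exact (SUV (hh K L q)).mul_mem ((SUV (hh K L q)).mul_mem ((SUV (hh K L q)).mul_mem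
      ((SUV (hh K L q)).inv_mem hg.1) ((SUV (hh K L q)).inv_mem hymem)) hg.1) hymem
  · intro a
    rw [h1]
    simp
  · rw [h1]
  · intro b
    rw [hev, SS_third_inv hg, hy, yy_symm_apply]
    simp only
    rw [SS_third hg, yy_apply]
    simp only
    rw [inv_mul_cancel_left₀ hx']
  · change (eng y g (0, 1, 0)).1 = _
    rw [h1]
    simp

end

/-- **WPAR** -/
theorem wpar (hH : HabvStmt) : WparStmt := by
  intro K L _ _ _ _ _ _ q m x hS h2 hm hfr hx d hL
  have hN : Algebra.norm K x ≠ 0 := by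
    rw [Ne, Algebra.norm_eq_zero_iff]
    exact hx
  have he : Algebra.norm K x ^ (q - 1) ≠ 0 := pow_ne_zero _ hN
  obtain ⟨x', hxx⟩ := surj_q (K := K) hS x⁻¹
  have hx' : x' ≠ 0 := by
    rintro rfl
    rw [zero_pow (q_ne hS)] at hxx
    exact inv_ne_zero hx hxx.symm
  have hfr2 : Module.finrank K (L × K × L) = 2 * m + 1 := by
    rw [Module.finrank_prod, Module.finrank_prod, hfr, Module.finrank_self]
    ring
  obtain ⟨r, hr⟩ := hH K (L × K × L) (hh K L q) (2 * m + 1) (exists_star_ne hS) (isHerm_hh hS)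
    hfr2 L (pp K L) (SS K L q) (yy K x x' (Algebra.norm K x ^ (q - 1)) hx hx' he)
    (AddMonoidHom.mulLeft (tauW K L q x))
    (fun g hg => hg.1) (yy_mem hS x x' hx hx' hxx he)
    (by
      intro g hg
      obtain ⟨h3, h4⟩ := eng_SS hS x x' hx hx' hxx he hg
      refine ⟨h3, ?_⟩
      rw [h4]
      rfl)
    (by
      intro g hg g' hg' c hc
      have h3 := hc (1, 0, 0)
      rw [hg.2.1, hg'.2.1] at h3
      have h4 : c = 1 := by
        have h5 := congrArg Prod.fst h3
        simp only [Prod.smul_fst] at h5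
        rw [Algebra.smul_def, mul_one] at h5
        exact (algebraMap K L).injective (by rw [← h5, map_one])
      have h6 := hc (0, 1, 0)
      rw [h4, one_smul] at h6
      exact congrArg Prod.fst h6)
    (by
      intro α
      exact ⟨gE hS h2 α, (gE_SS hS h2 α).1, (gE_SS hS h2 α).2⟩) d hL
  refine ⟨r, ?_⟩
  let T : AddMonoid.End L := AddMonoidHom.mulLeft (tauW K L q x)
  have h5 : ∀ k : ℕ, ((T - 1) ^ k) 1 = (tauW K L q x - 1) ^ k := by
    intro k
    induction k with
    | zero =>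
      rw [pow_zero, pow_zero]
      rfl
    | succ k ih =>
      rw [pow_succ', pow_succ']
      change (T - 1) (((T - 1) ^ k) 1) = _
      rw [ih]
      change tauW K L q x * (tauW K L q x - 1) ^ k - (tauW K L q x - 1) ^ k = _
      ring
  rw [← h5, ← h5]
  exact DFunLike.congr_fun hr 1

end Pool.Agent.Eng.H63
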