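import Pool.Agent.Helper99_Eng3.Stmts

/-!
# Squad ENG, part 3, module OPAR: the field acts on the unipotent radical
-/

set_option autoImplicit false

open scoped commutatorElement

namespace Pool.Agent.Eng.H63

section coord

variable {F V K : Type} [Field F] [Finite F] [AddCommGroup V] [Module F V]
  [FiniteDimensional F V] [Field K] [Algebra F K] [FiniteDimensional F K]

omit [FiniteDimensional F V] in
/-- Representation of a family of linear forms by the trace form. -/
theorem exists_coord (Q : QuadraticForm F V) (j : K →ₗ[F] V) :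
    ∃ α : V →ₗ[F] K, ∀ (v : V) (b : K),
      Algebra.trace F K (α v * b) = QuadraticMap.polar Q v (j b) := by
  let e : K ≃ₗ[F] Module.Dual F K :=
    (Algebra.traceForm F K).toDual (traceForm_nondegenerate F K)
  let ψ : V →ₗ[F] Module.Dual F K := (LinearMap.lcomp F F j) ∘ₗ Q.polarBilin
  refine ⟨e.symm.toLinearMap ∘ₗ ψ, fun v b => ?_⟩
  have h1 : Algebra.traceForm F K (e.symm (ψ v)) b = (e (e.symm (ψ v))) b := rfl
  have h2 : Algebra.traceForm F K (e.symm (ψ v)) b = Algebra.trace F K (e.symm (ψ v) * b) := by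
    rw [Algebra.traceForm_apply]
  change Algebra.trace F K (e.symm (ψ v) * b) = _
  rw [← h2, h1, e.apply_symm_apply]
  rfl

omit [FiniteDimensional F V] [AddCommGroup V] [Module F V] in
/-- Nondegeneracy of the trace form. -/
theorem eq_of_trace (a a' : K)
    (h : ∀ b : K, Algebra.trace F K (a * b) = Algebra.trace F K (a' * b)) : a = a' := by
  have h1 : a - a' = 0 := by
    refine (traceForm_nondegenerate F K).1 (a - a') (fun b => ?_)
    rw [Algebra.traceForm_apply, sub_mul, map_sub, h b, sub_self]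
  exact sub_eq_zero.1 h1

omit [Finite F] in
/-- Isometric endomorphisms of nondegenerate spaces are bijective. -/
theorem exists_iso {Q : QuadraticForm F V} (hQ : ND Q) (f : V →ₗ[F] V)
    (hf : ∀ v, Q (f v) = Q v) : ∃ g ∈ OV Q, ∀ v, g v = f v := by
  have hinj : Function.Injective f := by
    rw [injective_iff_map_eq_zero]
    intro v hv
    apply hQ
    intro u
    have h1 : QuadraticMap.polar Q v u = QuadraticMap.polar Q (f v) (f u) := by
      unfold QuadraticMap.polar
      rw [← map_add, hf, hf, hf]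
    rw [h1, hv, QuadraticMap.polar_zero_left]
  refine ⟨LinearEquiv.ofInjectiveEndo f hinj, fun v => ?_, fun v => ?_⟩
  · rw [LinearEquiv.coe_ofInjectiveEndo]
    exact hf v
  · rw [LinearEquiv.coe_ofInjectiveEndo]

end coord

theorem opar : OparStmt := by
  intro F V K _ _ _ _ _ _ _ _ Q ι hQ hι hdim ρ hρ d hlaw
  classical
  -- coordinates
  let ja : K →ₗ[F] V := ι ∘ₗ LinearMap.inl F K K
  let jb : K →ₗ[F] V := ι ∘ₗ LinearMap.inr F K K
  have hja : ∀ a, ja a = ι (a, 0) := fun a => rfl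
  have hjb : ∀ b, jb b = ι (0, b) := fun b => rfl
  have hsum : ∀ a b, ι (a, b) = ι (a, 0) + ι (0, b) := by
    intro a b
    rw [← map_add]
    simp
  obtain ⟨α, hα⟩ := exists_coord Q jb
  obtain ⟨β, hβ⟩ := exists_coord Q ja
  have hpol : ∀ a b a' b' : K, QuadraticMap.polar Q (ι (a, b)) (ι (a', b')) =
      Algebra.trace F K (a * b' + b * a') := by
    intro a b a' b'
    unfold QuadraticMap.polar
    rw [← map_add, Prod.mk_add_mk, hι, hι, hι, ← map_sub, ← map_sub]
    congr 1
    ring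
  have hαι : ∀ a b, α (ι (a, b)) = a := by
    intro a b
    refine eq_of_trace (F := F) _ _ (fun b' => ?_)
    rw [hα, hjb, hpol]
    simp
  have hβι : ∀ a b, β (ι (a, b)) = b := by
    intro a b
    refine eq_of_trace (F := F) _ _ (fun a' => ?_)
    rw [hβ, hja, hpol]
    simp
  -- isometries
  have hiso : ∀ s t : V →ₗ[F] K,
      (∀ v, s v * t v + α v * t v + β v * s v = 0) →
      ∃ g ∈ OV Q, ∀ v, g v = v + ι (s v, t v) := by
    intro s t hst
    obtain ⟨g, hg, hg'⟩ := exists_iso hQ (LinearMap.id + ι ∘ₗ (s.prod t)) (by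
      intro v
      have h1 : ((LinearMap.id + ι ∘ₗ (s.prod t) : V →ₗ[F] V)) v = v + ι (s v, t v) := rfl
      rw [h1, QuadraticMap.map_add Q v (ι (s v, t v)), hι]
      have h2 : QuadraticMap.polar Q v (ι (s v, t v)) =
          Algebra.trace F K (β v * s v) + Algebra.trace F K (α v * t v) := by
        rw [hsum, QuadraticMap.polar_add_right, hβ, hα, hja, hjb]
      rw [h2, add_assoc, ← map_add, ← map_add]
      have h3 : s v * t v + (β v * s v + α v * t v) = 0 := by
        rw [← hst v]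
        ring
      rw [h3, map_zero, add_zero])
    exact ⟨g, hg, fun v => by rw [hg' v]; rfl⟩
  have hρi : ρ⁻¹ ≠ 0 := inv_ne_zero hρ
  obtain ⟨g, hgO, hg⟩ := hiso (LinearMap.mulLeft F (ρ⁻¹ - 1) ∘ₗ α)
    (LinearMap.mulLeft F (ρ - 1) ∘ₗ β) (by
      intro v
      simp only [LinearMap.comp_apply, LinearMap.mulLeft_apply]
      have h1 : ρ⁻¹ * ρ = 1 := inv_mul_cancel₀ hρ
      linear_combination (α v * β v) * h1)
  obtain ⟨s, hsO, hs⟩ := hiso (β - α) (α - β) (by
      intro v
      simp only [LinearMap.sub_apply]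
      ring)
  have hgι : ∀ a b, g (ι (a, b)) = ι (ρ⁻¹ * a, ρ * b) := by
    intro a b
    rw [hg, ← map_add]
    congr 1
    simp only [LinearMap.comp_apply, LinearMap.mulLeft_apply, hαι, hβι, Prod.mk_add_mk]
    refine Prod.ext ?_ ?_ <;> simp only <;> ring
  have hsι : ∀ a b, s (ι (a, b)) = ι (b, a) := by
    intro a b
    rw [hs, ← map_add]
    congr 1
    simp only [LinearMap.sub_apply, hαι, hβι, Prod.mk_add_mk]
    refine Prod.ext ?_ ?_ <;> simp only <;> ring
  have hinv : ∀ (x : V ≃ₗ[F] V) (v w : V), x v = w → x⁻¹ w = v := by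
    intro x v w h
    rw [← h]
    exact x.symm_apply_apply v
  -- the vector z
  obtain ⟨z, hz0, hzα, hzβ⟩ : ∃ z : V, z ≠ 0 ∧ α z = 0 ∧ β z = 0 := by
    have h1 : 0 < Module.finrank F (LinearMap.ker (α.prod β)) := by
      have h2 := LinearMap.finrank_range_add_finrank_ker (α.prod β)
      have h3 : Module.finrank F (LinearMap.range (α.prod β)) ≤ Module.finrank F (K × K) :=
        Submodule.finrank_le _
      rw [Module.finrank_prod] at h3
      omega
    obtain ⟨⟨z, hz⟩, hz0⟩ := (Module.finrank_pos_iff_exists_ne_zero).1 h1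
    rw [LinearMap.mem_ker] at hz
    have h4 := congrArg Prod.fst hz
    have h5 := congrArg Prod.snd hz
    exact ⟨z, fun h => hz0 (Subtype.ext h), h4, h5⟩
  have hι0 : ι ((0 : K), (0 : K)) = 0 := map_zero ι
  have hgz : g z = z := by
    rw [hg]
    simp [hzα, hzβ, hι0]
  have hsz : s z = z := by
    rw [hs]
    simp [hzα, hzβ, hι0]
  -- the element y
  let y : V ≃ₗ[F] V := ⁅g, s⁆
  have hyO : y ∈ OmV Q := Subgroup.commutator_mem_commutator hgO hsO
  have hyι : ∀ a, y (ι (a, 0)) = ι ((ρ ^ 2)⁻¹ * a, 0) := by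
    intro a
    have e1 : s⁻¹ (ι (a, 0)) = ι (0, a) := hinv s _ _ (hsι 0 a)
    have e2 : g⁻¹ (ι (0, a)) = ι (0, ρ⁻¹ * a) := by
      apply hinv
      rw [hgι]
      congr 1
      refine Prod.ext ?_ ?_
      · simp
      · simp only
        rw [← mul_assoc, mul_inv_cancel₀ hρ, one_mul]
    have e3 : y (ι (a, 0)) = g (s (g⁻¹ (s⁻¹ (ι (a, 0))))) := rfl
    rw [e3, e1, e2, hsι, hgι]
    congr 1
    refine Prod.ext ?_ ?_
    · simp only
      rw [← mul_assoc]
      congr 1
      rw [sq, mul_inv]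
    · simp
  have hyz : y z = z := by
    have e3 : y z = g (s (g⁻¹ (s⁻¹ z))) := rfl
    rw [e3, hinv s _ _ hsz, hinv g _ _ hgz, hsz, hgz]
  have hyi : ∀ a, y⁻¹ (ι (a, 0)) = ι (ρ ^ 2 * a, 0) := by
    intro a
    apply hinv
    rw [hyι, ← mul_assoc, inv_mul_cancel₀ (pow_ne_zero 2 hρ), one_mul]
  have hyiz : y⁻¹ z = z := hinv y _ _ hyz
  -- the Engel map
  have hstep : ∀ (x : V ≃ₗ[F] V) (c : K), (∀ a, x (ι (a, 0)) = ι (a, 0)) →
      x z = z + ι (c, 0) → (∀ a, (eng y x) (ι (a, 0)) = ι (a, 0)) ∧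
        (eng y x) z = z + ι ((ρ ^ 2 - 1) * c, 0) := by
    intro x c hx hxz
    have hxi : ∀ a, x⁻¹ (ι (a, 0)) = ι (a, 0) := fun a => hinv x _ _ (hx a)
    have hev : ∀ v, (eng y x) v = x⁻¹ (y⁻¹ (x (y v))) := fun v => rfl
    refine ⟨fun a => ?_, ?_⟩
    · rw [hev, hyι, hx, hyi, hxi]
      congr 2
      rw [← mul_assoc, mul_inv_cancel₀ (pow_ne_zero 2 hρ), one_mul]
    · have h1 : x⁻¹ z = z + ι (-c, 0) := by
        apply hinv
        rw [map_add, hxz, hx, add_assoc, ← map_add]
        simp [hι0]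
      rw [hev, hyz, hxz, map_add, hyiz, hyi, map_add, hxi, h1, add_assoc, ← map_add]
      congr 2
      refine Prod.ext ?_ ?_
      · simp only [Prod.mk_add_mk]
        ring
      · simp
  have hiter : ∀ (n : ℕ) (x : V ≃ₗ[F] V) (c : K), (∀ a, x (ι (a, 0)) = ι (a, 0)) →
      x z = z + ι (c, 0) → (∀ a, ((eng y)^[n] x) (ι (a, 0)) = ι (a, 0)) ∧
        ((eng y)^[n] x) z = z + ι ((ρ ^ 2 - 1) ^ n * c, 0) := by
    intro n
    induction n with
    | zero =>
      intro x c hx hxz
      simpa using And.intro hx hxz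
    | succ n ih =>
      intro x c hx hxz
      obtain ⟨h1, h2⟩ := hstep x c hx hxz
      obtain ⟨h3, h4⟩ := ih (eng y x) _ h1 h2
      rw [Function.iterate_succ_apply]
      refine ⟨h3, ?_⟩
      rw [h4]
      congr 2
      refine Prod.ext ?_ rfl
      simp only
      ring
  -- the Eichler transformation
  have hιinj : ∀ a b : K, ι (a, 0) = ι (b, 0) → a = b := by
    intro a b h
    rw [← hαι a 0, h, hαι]
  obtain ⟨v₀, hv₀⟩ : ∃ v, QuadraticMap.polar Q z v ≠ 0 := by
    by_contra hcon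
    push Not at hcon
    exact hz0 (hQ z hcon)
  have hzι : ∀ a b, QuadraticMap.polar Q z (ι (a, b)) = 0 := by
    intro a b
    rw [hsum, QuadraticMap.polar_add_right]
    have h1 := hβ z a
    have h2 := hα z b
    rw [hzβ, zero_mul, map_zero] at h1
    rw [hzα, zero_mul, map_zero] at h2
    rw [← hja, ← hjb, ← h1, ← h2, add_zero]
  obtain ⟨x₁, hx₁z, hx₁α, hx₁β⟩ : ∃ x₁ : V, QuadraticMap.polar Q z x₁ = -1 ∧
      α x₁ = 0 ∧ β x₁ = 0 := by
    let v₁ : V := v₀ - ι (α v₀, β v₀)
    have h1 : QuadraticMap.polar Q z v₁ = QuadraticMap.polar Q z v₀ := by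
      change QuadraticMap.polar Q z (v₀ - ι (α v₀, β v₀)) = _
      rw [QuadraticMap.polar_sub_right, hzι, sub_zero]
    refine ⟨(-(QuadraticMap.polar Q z v₀)⁻¹) • v₁, ?_, ?_, ?_⟩
    · rw [QuadraticMap.polar_smul_right, h1, smul_eq_mul, neg_mul, inv_mul_cancel₀ hv₀]
    · rw [map_smul]
      change _ • α (v₀ - ι (α v₀, β v₀)) = 0
      rw [map_sub, hαι, sub_self, smul_zero]
    · rw [map_smul]
      change _ • β (v₀ - ι (α v₀, β v₀)) = 0
      rw [map_sub, hβι, sub_self, smul_zero]
  let w : V := ι (1, 0)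
  have hw : w = ι (1, 0) := rfl
  have hQw : Q w = 0 := by
    rw [hw, hι]
    simp
  have hBw : ∀ v, QuadraticMap.polar Q v w = Algebra.trace F K (β v) := by
    intro v
    have := hβ v 1
    rw [mul_one] at this
    rw [this, hja]
  have hx₁w : QuadraticMap.polar Q x₁ w = 0 := by
    rw [hBw, hx₁β, map_zero]
  let E : V →ₗ[F] V := LinearMap.id + (Q.polarBilin w).smulRight x₁
    - (Q.polarBilin x₁).smulRight w - (Q.polarBilin w).smulRight (Q x₁ • w)
  have hE : ∀ v, E v = v + QuadraticMap.polar Q w v • x₁ - QuadraticMap.polar Q x₁ v • w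
      - QuadraticMap.polar Q w v • (Q x₁ • w) := fun v => rfl
  obtain ⟨x, hxO, hx⟩ := exists_iso hQ E (by
    intro v
    set b : F := QuadraticMap.polar Q w v with hb
    set c : F := QuadraticMap.polar Q x₁ v with hc
    have h1 : E v = v + (b • x₁ + (-(c + b * Q x₁)) • w) := by
      rw [hE, ← hb, ← hc]
      module
    have h2 : Q (b • x₁ + (-(c + b * Q x₁)) • w) = b * b * Q x₁ := by
      rw [QuadraticMap.map_add Q (b • x₁), QuadraticMap.map_smul, QuadraticMap.map_smul, hQw,
        QuadraticMap.polar_smul_left, QuadraticMap.polar_smul_right, hx₁w]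
      simp
    have h3 : QuadraticMap.polar Q v (b • x₁ + (-(c + b * Q x₁)) • w) =
        b * c - (c + b * Q x₁) * b := by
      rw [QuadraticMap.polar_add_right, QuadraticMap.polar_smul_right,
        QuadraticMap.polar_smul_right, QuadraticMap.polar_comm Q v x₁,
        QuadraticMap.polar_comm Q v w, ← hb, ← hc]
      simp only [smul_eq_mul]
      ring
    rw [h1, QuadraticMap.map_add Q v, h2, h3]
    ring)
  have hxι : ∀ a, x (ι (a, 0)) = ι (a, 0) := by
    intro a
    have h1 : QuadraticMap.polar Q w (ι (a, 0)) = 0 := by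
      rw [hw, hpol]
      simp
    have h2 : QuadraticMap.polar Q x₁ (ι (a, 0)) = 0 := by
      have := hβ x₁ a
      rw [hx₁β, zero_mul, map_zero] at this
      rw [← hja, ← this]
    rw [hx, hE, h1, h2]
    simp
  have hxz : x z = z + ι (1, 0) := by
    have h1 : QuadraticMap.polar Q w z = 0 := by
      rw [QuadraticMap.polar_comm, hBw, hzβ, map_zero]
    rw [hx, hE, h1, QuadraticMap.polar_comm Q x₁ z, hx₁z]
    simp [hw]
  -- conclusion
  obtain ⟨r, hr⟩ := hlaw
  obtain ⟨c, hc⟩ := hr x hxO y hyO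
  obtain ⟨h1, h2⟩ := hiter (r + d) x 1 hxι hxz
  obtain ⟨h3, h4⟩ := hiter r x 1 hxι hxz
  have hc1 : c = 1 := by
    have h5 := hc (ι (1, 0))
    rw [h1, h3, ← map_smul] at h5
    have h6 := congrArg α h5
    rw [hαι, Prod.smul_mk, smul_zero, hαι] at h6
    have h7 : algebraMap F K c = algebraMap F K 1 := by
      rw [Algebra.smul_def, mul_one] at h6
      rw [map_one]
      exact h6.symm
    exact (algebraMap F K).injective h7
  refine ⟨r, ?_⟩
  have h5 := hc z
  rw [h2, h4, hc1, one_smul] at h5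
  have h6 := hιinj _ _ (add_left_cancel h5)
  simpa using h6

end Pool.Agent.Eng.H63
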